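import Pool.Agent.Helper34.FF.Goals3
import Pool.Agent.Helper34.FF.G1
import Pool.Agent.Helper1.FF2.Goals2

/-!
# MP_7cb822_co, packet C10 (StmtAnn): the annulus
-/

namespace Pool.Agent.Helper21.FF

open Finset
open Pool.Agent.Helper34.FF
open scoped symmDiff Classical

theorem pf_StmtAnn (hSplit : StmtSplit) (hNoThird : StmtNoThird) (hFlat : StmtFlat)
    (hThin : Pool.Agent.Helper1.FF2.StmtThin) (hMass : StmtMass) : StmtAnn := by
  intro V F _ _ T hT L e l T₁ hR hM
  obtain ⟨hVbd, hm⟩ := hMass V F T hT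
  obtain ⟨hmono, hmle, -, -, -, hlen⟩ := hm L
  have hlc : ∀ X, T.len Xᶜ = T.len X := fun X => (hlen X X).2.2.2
  obtain ⟨hTri1, hTri2, hVbdc, -, -⟩ := pTri V F T hT
  obtain ⟨hIso1, -⟩ := pIso V F T hT
  obtain ⟨Xa, hXb, hXs, hXl, hX60, hX2⟩ :=
    hSplit V F T hT L e l T₁ T₁ hR hR.bond (Subset.refl _) hR.len (by omega)
  have hone := hR.one
  have hXa : 2 * e + 2 * l ≤ T.m L Xa := by omega
  have hDXT : Disjoint Xa T₁ᶜ := by
    rw [Finset.disjoint_left]
    intro f hf hf'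
    exact (Finset.mem_compl.1 hf') (hXs hf)
  -- key facts on sets between
  have key : ∀ Y, Xa ⊆ Y → Y ⊆ T₁ → l ≤ T.len Y ∧ (T.len Y = l → T.Bond Y) := by
    intro Y h1 h2
    have hd : Disjoint Y T₁ᶜ := by
      rw [Finset.disjoint_left]
      intro f hf hf'
      exact (Finset.mem_compl.1 hf') (h2 hf)
    obtain ⟨Y', hb, hsub, hdis, -, hle, heq⟩ :=
      hFlat V F T hT Xa T₁ᶜ Y hXb.1 hR.bond.2 h1 hd
    have hsub' : Y' ⊆ T₁ := by
      intro f hf
      by_contra hc
      exact (Finset.disjoint_left.1 hdis hf) (Finset.mem_compl.2 hc)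
    have hm1 : T.m L Xa ≤ T.m L Y' := hmono _ _ hsub
    have hl : l ≤ T.len Y' := hR.r1 Y' hb hsub' (by omega)
    refine ⟨hl.trans hle, fun h => ?_⟩
    have : Y' = Y := heq (by omega)
    rw [← this]
    exact hb
  have sep : ∀ Y, Xa ⊆ Y → Y ⊆ T₁ → l ≤ T.len Y := fun Y h1 h2 => (key Y h1 h2).1
  have iso : ∀ Y, Xa ⊆ Y → Y ⊆ T₁ → T.len Y = l → ∃ c, T.Iso Y l c := by
    intro Y h1 h2 h3
    have hm1 : T.m L Xa ≤ T.m L Y := hmono _ _ h1
    exact hR.r2 Y ((key Y h1 h2).2 h3) h2 h3 (by omega)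
  obtain ⟨cX, hcX⟩ := iso Xa (Subset.refl _) hXs hXl
  obtain ⟨cT, hcT⟩ := iso T₁ hXs (Subset.refl _) hR.len
  obtain ⟨hINX, -, -, -⟩ := hIso1 Xa l cX hcX
  obtain ⟨-, hINT, hcT', -⟩ := hIso1 T₁ l cT hcT
  have hbT' : T.Bond T₁ᶜ := ⟨hR.bond.2, by rw [compl_compl]; exact hR.bond.1⟩
  have hk : ∀ U, T.Bond U → Disjoint U Xa → Disjoint U T₁ᶜ → T.len U ≤ l →
      T.m L U ≤ 1000 * (e + l) := by
    intro U hU hUX hUT hUl
    by_cases hc : e ≤ T.m L U
    · have hUT' : U ⊆ T₁ := by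
        intro f hf
        by_contra hcc
        exact (Finset.disjoint_left.1 hUT hf) (Finset.mem_compl.2 hcc)
      have h1 : l ≤ T.len U := hR.r1 U hU hUT' hc
      have h2 := hNoThird V F T hT L e l T₁ Xa U hR hXb hU hXs hUT' hUX.symm hXl
        (by omega) hXa
      omega
    · omega
  refine ⟨Xa, ⟨hone, fun u hu => (hR.bad u hu).1, hXs, hXb, hR.bond, sep, iso, ?_⟩, ?_⟩
  · intro u hu huT huX
    constructor
    · obtain ⟨Y, h1, h2, h3, h4, h5, h6⟩ :=
        hThin V F T hT L e l (1000 * (e + l)) Xa T₁ᶜ cX u hR.bad hu hcX hbT' hINT hDXT huX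
          (by rw [compl_compl]; exact huT)
          ((by omega : e ≤ T.m L Xa).trans (hmle Xa))
          (fun Y h1 h2 => sep Y h1 (by
            intro f hf
            by_contra hcc
            exact (Finset.disjoint_left.1 h2 hf) (Finset.mem_compl.2 hcc)))
          (fun U h1 h2 h3 _ h5 => hk U h1 h2 h3 h5)
      refine ⟨Y, h1, ?_, h4, h5, ?_⟩
      · intro f hf
        by_contra hcc
        exact (Finset.disjoint_left.1 h2 hf) (Finset.mem_compl.2 hcc)
      · omega
    · obtain ⟨Y, h1, h2, h3, h4, h5, h6⟩ :=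
        hThin V F T hT L e l (1000 * (e + l)) T₁ᶜ Xa cT u hR.bad hu hcT' hXb hINX hDXT.symm
          (by rw [compl_compl]; exact huT) huX
          (hR.out.trans (hmle T₁ᶜ))
          (fun Y h1 h2 => by
            rw [← hlc Y]
            apply sep
            · intro f hf
              rw [Finset.mem_compl]
              intro hcc
              exact (Finset.disjoint_left.1 h2 hcc) hf
            · intro f hf
              by_contra hcc
              exact (Finset.mem_compl.1 hf) (h1 (Finset.mem_compl.2 hcc)))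
          (fun U h1 h2 h3 _ h5 => hk U h1 h3 h2 h5)
      refine ⟨Yᶜ, ?_, ?_, ?_, ?_, ?_⟩
      · intro f hf
        rw [Finset.mem_compl]
        intro hcc
        exact (Finset.disjoint_left.1 h2 hcc) hf
      · intro f hf
        by_contra hcc
        exact (Finset.mem_compl.1 hf) (h1 (Finset.mem_compl.2 hcc))
      · rw [hlc]
        exact h4
      · rw [hVbdc]
        exact h5
      · have he : T₁ \ Yᶜ = Y \ T₁ᶜ := by
          ext f
          simp only [Finset.mem_sdiff, Finset.mem_compl, not_not]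
          tauto
        rw [he]
        omega
  · have hcov : L ∩ T.Vin T₁ ⊆ (L ∩ T.Vin Xa) ∪ T.Vbd Xa ∪ ((L ∩ T.Vin T₁) ∩ T.Vin Xaᶜ) := by
      intro v hv
      rcases hTri1 Xa v with h | h | h
      · simp only [Finset.mem_union, Finset.mem_inter]
        exact Or.inl (Or.inl ⟨(Finset.mem_inter.1 hv).1, h⟩)
      · simp only [Finset.mem_union, Finset.mem_inter]
        exact Or.inl (Or.inr h)
      · rw [Finset.mem_union]
        exact Or.inr (Finset.mem_inter.2 ⟨hv, h⟩)
    have h1 := Finset.card_le_card hcov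
    have h2 := Finset.card_union_le ((L ∩ T.Vin Xa) ∪ T.Vbd Xa) ((L ∩ T.Vin T₁) ∩ T.Vin Xaᶜ)
    have h3 := Finset.card_union_le (L ∩ T.Vin Xa) (T.Vbd Xa)
    have h4 := hVbd Xa
    unfold Tri.m at hX2 ⊢
    omega

end Pool.Agent.Helper21.FF
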